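import Mathlib
import Pool.Agent.H554R2.Thrifty.Defs

/-!
# Segments of computations, shortest computations, and splicing
-/

set_option autoImplicit false

namespace Pool.Agent.H554R2.Gen

open Pool.Agent.H554R2.Thrifty

/-- The first state of the path `l` followed by `t`. -/
def hd {S T : Type} : List S → S ⊕ T → S ⊕ T
  | [], t => t
  | q :: _, _ => Sum.inl q

theorem hd_append {S T : Type} (l l' : List S) (t : S ⊕ T) : hd (l ++ l') t = hd l (hd l' t) := by
  cases l <;> rfl

theorem hd_of_ne_nil {S T : Type} {l : List S} (h : l ≠ []) (t : S ⊕ T) :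
    hd l t = Sum.inl (l.head h) := by
  cases l with
  | nil => exact absurd rfl h
  | cons q l => rfl

variable {V : Type} {K : ℕ}

/-- The list `l` of non-final states followed by `t` is a path. -/
def Seg (P : BP V K) (x : V → Fin K) : List P.State → P.State ⊕ Bool → Prop
  | [], _ => True
  | q :: l, t => P.edge q (x (P.query q)) (hd l t) ∧ Seg P x l t

theorem seg_append (P : BP V K) (x : V → Fin K) (t : P.State ⊕ Bool) : ∀ l l' : List P.State,
    Seg P x (l ++ l') t ↔ Seg P x l (hd l' t) ∧ Seg P x l' t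
  | [], l' => by simp [Seg]
  | q :: l, l' => by
    rw [List.cons_append]
    simp only [Seg]
    rw [seg_append P x t l l', hd_append, and_assoc]

theorem seg_congr (P : BP V K) (x y : V → Fin K) (t : P.State ⊕ Bool) : ∀ l : List P.State,
    (∀ q ∈ l, x (P.query q) = y (P.query q)) → Seg P x l t → Seg P y l t
  | [], _, _ => trivial
  | q :: l, h, hs => by
    refine ⟨?_, seg_congr P x y t l (fun q' hq' => h q' (List.mem_cons_of_mem _ hq')) hs.2⟩
    rw [← h q List.mem_cons_self]
    exact hs.1

theorem isPath_iff (P : BP V K) (x : V → Fin K) (r : Bool) : ∀ l : List P.State,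
    P.IsPath x l r ↔ l ≠ [] ∧ Seg P x l (Sum.inr r)
  | [] => by simp [BP.IsPath]
  | [q] => by simp [BP.IsPath, Seg, hd]
  | q :: q' :: l => by
    have ih := isPath_iff P x r (q' :: l)
    simp only [BP.IsPath]
    rw [ih]
    simp [Seg, hd]

theorem isComp_iff (P : BP V K) (x : V → Fin K) (r : Bool) (l : List P.State) :
    P.IsComp x l r ↔ hd l (Sum.inr r) = Sum.inl P.start ∧ Seg P x l (Sum.inr r) := by
  unfold BP.IsComp
  rw [isPath_iff]
  cases l with
  | nil => simp [hd]
  | cons q l => simp [hd]

/-- Replacing a segment of a computation. -/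
theorem splice (P : BP V K) {x y : V → Fin K} {p m s p' m' s' : List P.State} {r r' : Bool}
    (h : P.IsComp x (p ++ (m ++ s)) r) (h' : P.IsComp y (p' ++ (m' ++ s')) r')
    (hm : m ≠ []) (hm' : m' ≠ [])
    (hfirst : m.head hm = m'.head hm')
    (hnext : hd s (Sum.inr r) = hd s' (Sum.inr r'))
    (hxy : ∀ q ∈ m', y (P.query q) = x (P.query q)) : P.IsComp x (p ++ (m' ++ s)) r := by
  rw [isComp_iff] at h h' ⊢
  rw [seg_append, seg_append, hd_append, hd_append] at h h' ⊢
  have e : ∀ t : P.State ⊕ Bool, hd m' t = hd m t := by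
    intro t
    rw [hd_of_ne_nil hm, hd_of_ne_nil hm', hfirst]
  refine ⟨?_, ?_, ?_, h.2.2.2⟩
  · rw [e]; exact h.1
  · rw [e]; exact h.2.1
  · rw [hnext]
    exact seg_congr P y x _ m' hxy h'.2.2.1

/-- A computation of minimal length does not repeat a state. -/
theorem exists_nodup (P : BP V K) (x : V → Fin K) (r : Bool) (h : ∃ l, P.IsComp x l r) :
    ∃ l, P.IsComp x l r ∧ l.Nodup := by
  classical
  have hex : ∃ n, ∃ l : List P.State, P.IsComp x l r ∧ l.length = n := by
    obtain ⟨l, hl⟩ := h
    exact ⟨_, l, hl, rfl⟩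
  obtain ⟨l, hl, hlen⟩ := Nat.find_spec hex
  refine ⟨l, hl, ?_⟩
  by_contra hnd
  obtain ⟨q, hq⟩ : ∃ q, List.Duplicate q l := by
    simpa [List.nodup_iff_forall_not_duplicate] using hnd
  obtain ⟨a, b, hab⟩ : ∃ a b : List P.State, l = a ++ q :: b ∧ q ∈ b := by
    clear hlen hl hnd
    induction hq with
    | cons_mem hm => exact ⟨[], _, rfl, hm⟩
    | cons_duplicate _ ih =>
      obtain ⟨a, b, h1, h2⟩ := ih
      exact ⟨_ :: a, b, by rw [h1]; rfl, h2⟩
  obtain ⟨hab, hqb⟩ := hab
  obtain ⟨b1, b2, rfl⟩ := List.append_of_mem hqb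
  have h1 : P.IsComp x (a ++ q :: b2) r := by
    rw [isComp_iff] at hl ⊢
    rw [hab] at hl
    rw [show a ++ q :: (b1 ++ q :: b2) = a ++ ((q :: b1) ++ (q :: b2)) from by simp] at hl
    rw [seg_append, seg_append, hd_append, hd_append] at hl
    rw [seg_append, hd_append]
    exact ⟨hl.1, hl.2.1, hl.2.2.2⟩
  have h2 := Nat.find_min' hex ⟨_, h1, rfl⟩
  rw [← hlen, hab] at h2
  simp at h2
  omega

theorem exists_short (P : BP V K) (x : V → Fin K) (r : Bool) (h : ∃ l, P.IsComp x l r) :
    ∃ l, P.IsComp x l r ∧ l.length ≤ Fintype.card P.State := by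
  obtain ⟨l, hl, hn⟩ := exists_nodup P x r h
  exact ⟨l, hl, List.Nodup.length_le_card hn⟩

/-- The number of pairs of a set of size `M` and a labelling of its complement. -/
theorem card_sigma (ν : Type) [Fintype ν] [DecidableEq ν] (M k : ℕ) :
    Fintype.card (Σ U : {U : Finset ν // U.card = M}, ({v : ν // v ∉ U.1} → Fin k)) =
      (Fintype.card ν).choose M * k ^ (Fintype.card ν - M) := by
  rw [Fintype.card_sigma]
  have h : ∀ U : {U : Finset ν // U.card = M},
      Fintype.card ({v : ν // v ∉ U.1} → Fin k) = k ^ (Fintype.card ν - M) := by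
    intro U
    rw [Fintype.card_fun, Fintype.card_fin]
    congr 1
    have : Fintype.card {v : ν // v ∉ U.1} = Fintype.card ν - Fintype.card {v : ν // v ∈ U.1} :=
      Fintype.card_subtype_compl _
    rw [this, Fintype.card_coe, U.2]
  rw [Finset.sum_congr rfl (fun U _ => h U), Finset.sum_const, smul_eq_mul, Finset.card_univ,
    Fintype.card_finset_len]

/-- The splicing lower bound.  Every labelling `lam` of the set `ν` of nodes gives an input
`inp lam`; every variable `e` belongs to at most one node `nd e`, on whose label alone its value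
depends; the variable `e` names the label `arg e u` for each child `u` of its node, and in
computations these names are correct.  If for every `lam` some computation has a segment in whose
boundary there are `M` nodes, then there are many states. -/
theorem count (P : BP V K) {ν : Type} [Fintype ν] [DecidableEq ν] {k : ℕ} (hk : 0 < k)
    (inp : (ν → Fin k) → V → Fin K) (nd : V → Option ν) (child : ν → ν → Prop)
    (arg : V → ν → Fin k) (R : Bool → Prop)
    (hinp : ∀ lam mu e, (∀ v, nd e = some v → lam v = mu v) → inp lam e = inp mu e)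
    (thr : ∀ lam l r, R r → P.IsComp (inp lam) l r → ∀ q ∈ l, ∀ v, nd (P.query q) = some v →
      ∀ u, child u v → arg (P.query q) u = lam u)
    (M : ℕ)
    (hM : ∀ lam, ∃ r p m s, R r ∧ P.IsComp (inp lam) (p ++ (m ++ s)) r ∧ m ≠ [] ∧
      ∃ U : Finset ν, U.card = M ∧ ∀ u ∈ U, (∀ q ∈ m, nd (P.query q) ≠ some u) ∧
        ∃ q ∈ m, ∃ v, nd (P.query q) = some v ∧ child u v) :
    k ^ M ≤ Fintype.card P.State * P.size * (Fintype.card ν).choose M := by
  classical
  choose r p m s hR hcomp hne U hU hbd using hM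
  let Φ : (ν → Fin k) → (P.State × (P.State ⊕ Bool)) ×
      (Σ U : {U : Finset ν // U.card = M}, ({v : ν // v ∉ U.1} → Fin k)) := fun lam =>
    (((m lam).head (hne lam), hd (s lam) (Sum.inr (r lam))),
      ⟨⟨U lam, hU lam⟩, fun v => lam v.1⟩)
  have hΦ : Function.Injective Φ := by
    intro lam mu h
    have h1 : (m lam).head (hne lam) = (m mu).head (hne mu) := congrArg (fun z => z.1.1) h
    have h2 : hd (s lam) (Sum.inr (r lam)) = hd (s mu) (Sum.inr (r mu)) :=
      congrArg (fun z => z.1.2) h
    have h3 : (Φ lam).2 = (Φ mu).2 := congrArg (fun z => z.2) h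
    have h4 : U lam = U mu := congrArg (fun z : (Σ U : {U : Finset ν // U.card = M},
      ({v : ν // v ∉ U.1} → Fin k)) => z.1.1) h3
    have h5 : ∀ v, v ∉ U mu → lam v = mu v := by
      intro v hv
      have hF : ∀ (z z' : Σ U : {U : Finset ν // U.card = M}, ({v : ν // v ∉ U.1} → Fin k)),
          z = z' → ∀ (h : v ∉ z.1.1) (h' : v ∉ z'.1.1), z.2 ⟨v, h⟩ = z'.2 ⟨v, h'⟩ := by
        rintro z z' rfl h h'
        rfl
      exact hF _ _ h3 (by rw [show ((Φ lam).2).1.1 = U lam from rfl, h4]; exact hv) hv
    have hsp : P.IsComp (inp lam) (p lam ++ (m mu ++ s lam)) (r lam) := by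
      refine splice P (hcomp lam) (hcomp mu) (hne lam) (hne mu) h1 h2 ?_
      intro q hq
      apply hinp
      intro v hv
      by_cases hvU : v ∈ U mu
      · exact absurd hv ((hbd mu v hvU).1 q hq)
      · exact (h5 v hvU).symm
    funext u
    by_cases hu : u ∈ U mu
    · obtain ⟨-, q, hq, v, hv, hc⟩ := hbd mu u hu
      have e1 := thr lam _ _ (hR lam) hsp q (by simp [hq]) v hv u hc
      have e2 := thr mu _ _ (hR mu) (hcomp mu) q (by simp [hq]) v hv u hc
      rw [← e1, ← e2]
    · exact h5 u hu
  have hcard := Fintype.card_le_of_injective Φ hΦ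
  rw [Fintype.card_fun, Fintype.card_fin, Fintype.card_prod, Fintype.card_prod, Fintype.card_sum,
    Fintype.card_bool, card_sigma] at hcard
  by_cases hMV : M ≤ Fintype.card ν
  · have e : k ^ Fintype.card ν = k ^ M * k ^ (Fintype.card ν - M) := by
      rw [← pow_add]; congr 1; omega
    rw [e] at hcard
    have hpos : 0 < k ^ (Fintype.card ν - M) := Nat.pow_pos hk
    refine Nat.le_of_mul_le_mul_right (hcard.trans (le_of_eq ?_)) hpos
    unfold BP.size
    ring
  · rw [Nat.choose_eq_zero_of_lt (by omega)] at hcard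
    have : 0 < k ^ Fintype.card ν := Nat.pow_pos hk
    simp at hcard
    omega

end Pool.Agent.H554R2.Gen
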