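import Mathlib

/-!
# Words over the nodes of a cylindrical circuit

The nodes are the pairs `(i, x)` with a level `i` and a position `x` on a cycle of length `W`; the
children of `(i + 1, x)` are `(i, x)` and `(i, x + 1)`.  For a word of nodes and an interval of
positions of the word, the boundary of the interval consists of the nodes which do not occur in it
but have a parent which does.  If all boundaries are small then the word is long.
-/

set_option autoImplicit false

namespace Pool.Agent.H554R2.Gen

open Finset

variable {W : ℕ} [NeZero W] (w : ℕ → Option (ℕ × ZMod W))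

/-- The node `v` occurs in the interval `[a, b)` of the word `w`. -/
def Hit (v : ℕ × ZMod W) (a b : ℕ) : Prop := ∃ t, a ≤ t ∧ t < b ∧ w t = some v

open Classical in
/-- The nodes of level `i` which occur in `[a, b)`. -/
noncomputable def lev (a b i : ℕ) : Finset (ZMod W) := univ.filter (fun x => Hit w (i, x) a b)

open Classical in
/-- The boundary nodes of level `i`. -/
noncomputable def bdl (a b i : ℕ) : Finset (ZMod W) :=
  univ.filter (fun x => ¬ Hit w (i, x) a b ∧ ∃ y, Hit w (i + 1, y) a b ∧ (x = y ∨ x = y + 1))

/-- The dead nodes of level `i`: boundary nodes, and nodes both of whose children are dead. -/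
noncomputable def dead (a b : ℕ) : ℕ → Finset (ZMod W)
  | 0 => bdl w a b 0
  | i + 1 => bdl w a b (i + 1) ∪ (dead a b i).filter (fun x => x + 1 ∈ dead a b i)

theorem mem_lev {a b i : ℕ} {x : ZMod W} : x ∈ lev w a b i ↔ Hit w (i, x) a b := by
  simp [lev]

theorem mem_bdl {a b i : ℕ} {x : ZMod W} : x ∈ bdl w a b i ↔
    ¬ Hit w (i, x) a b ∧ ∃ y, Hit w (i + 1, y) a b ∧ (x = y ∨ x = y + 1) := by
  simp [bdl]

theorem bdl_subset_dead (a b : ℕ) : ∀ i, bdl w a b i ⊆ dead w a b i
  | 0 => Subset.refl _
  | _ + 1 => subset_union_left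

theorem card_dead (a b : ℕ) : ∀ i, (dead w a b i).card ≤ ∑ l ∈ range (i + 1), (bdl w a b l).card
  | 0 => by simp [dead]
  | i + 1 => by
    rw [sum_range_succ]
    calc (dead w a b (i + 1)).card ≤ (bdl w a b (i + 1)).card +
          ((dead w a b i).filter (fun x => x + 1 ∈ dead w a b i)).card := card_union_le _ _
      _ ≤ (bdl w a b (i + 1)).card + (dead w a b i).card :=
          Nat.add_le_add_left (card_filter_le _ _) _
      _ ≤ (bdl w a b (i + 1)).card + ∑ l ∈ range (i + 1), (bdl w a b l).card :=
          Nat.add_le_add_left (card_dead a b i) _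
      _ = _ := add_comm _ _

/-- Below a node that is not dead there are nodes that are not dead. -/
theorem alive_step {a b i : ℕ} {y : ZMod W} (hy : y ∈ lev w a b (i + 1))
    (hd : y ∉ dead w a b (i + 1)) : ∃ c, c ∈ lev w a b i ∧ c ∉ dead w a b i := by
  have h1 : ¬ (y ∈ dead w a b i ∧ y + 1 ∈ dead w a b i) := by
    intro h
    apply hd
    exact mem_union_right _ (mem_filter.2 h)
  have key : ∀ c, (c = y ∨ c = y + 1) → c ∉ dead w a b i → c ∈ lev w a b i := by
    intro c hc hcd
    by_contra hcon
    apply hcd
    apply bdl_subset_dead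
    rw [mem_bdl]
    rw [mem_lev] at hcon hy
    exact ⟨hcon, y, hy, hc⟩
  by_cases h2 : y ∈ dead w a b i
  · have h3 : y + 1 ∉ dead w a b i := fun h => h1 ⟨h2, h⟩
    exact ⟨y + 1, key _ (Or.inr rfl) h3, h3⟩
  · exact ⟨y, key _ (Or.inl rfl) h2, h2⟩

theorem alive_below {a b : ℕ} : ∀ (d i : ℕ) {y : ZMod W}, y ∈ lev w a b (i + d) →
    y ∉ dead w a b (i + d) → ∃ c, c ∈ lev w a b i ∧ c ∉ dead w a b i
  | 0, _, y, h1, h2 => ⟨y, h1, h2⟩
  | d + 1, i, y, h1, h2 => by
    obtain ⟨c, hc1, hc2⟩ := alive_step w h1 h2
    exact alive_below d i hc1 hc2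

/-- A nonempty set of residues which is not everything grows. -/
theorem card_union_shift (A : Finset (ZMod W)) (hA : A.Nonempty) :
    min W (A.card + 1) ≤ (A ∪ A.image (fun x => x + 1)).card := by
  by_cases h : ∀ y ∈ A, y + 1 ∈ A
  · obtain ⟨y, hy⟩ := hA
    have h1 : ∀ k : ℕ, y + (k : ZMod W) ∈ A := by
      intro k
      induction k with
      | zero => simpa using hy
      | succ k ih =>
        have := h _ ih
        push_cast
        rwa [← add_assoc]
    have h2 : A = univ := by
      rw [eq_univ_iff_forall]
      intro z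
      have h3 := h1 (z - y).val
      rw [ZMod.natCast_zmod_val] at h3
      simpa using h3
    have h3 : W ≤ (A ∪ A.image (fun x => x + 1)).card := by
      calc W = (univ : Finset (ZMod W)).card := by rw [card_univ, ZMod.card]
        _ ≤ _ := card_le_card (by rw [← h2]; exact subset_union_left)
    exact (min_le_left _ _).trans h3
  · push Not at h
    obtain ⟨y, hy1, hy2⟩ := h
    have h3 : A.card + 1 ≤ (A ∪ A.image (fun x => x + 1)).card := by
      rw [← card_insert_of_notMem hy2]
      apply card_le_card
      intro z hz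
      rw [mem_insert] at hz
      rcases hz with rfl | hz
      · exact mem_union_right _ (mem_image.2 ⟨y, hy1, rfl⟩)
      · exact mem_union_left _ hz
    exact (min_le_right _ _).trans h3

theorem growth {a b i : ℕ} (h : (lev w a b (i + 1)).Nonempty) :
    min W ((lev w a b (i + 1)).card + 1) ≤ (lev w a b i).card + (bdl w a b i).card := by
  refine (card_union_shift _ h).trans ((card_le_card ?_).trans (card_union_le _ _))
  intro z hz
  have hz' : ∃ y, y ∈ lev w a b (i + 1) ∧ (z = y ∨ z = y + 1) := by
    rcases mem_union.1 hz with hz | hz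
    · exact ⟨z, hz, Or.inl rfl⟩
    · obtain ⟨y, hy, rfl⟩ := mem_image.1 hz
      exact ⟨y, hy, Or.inr rfl⟩
  obtain ⟨y, hy, hzy⟩ := hz'
  by_cases hh : Hit w (i, z) a b
  · exact mem_union_left _ ((mem_lev w).2 hh)
  · exact mem_union_right _ ((mem_bdl w).2 ⟨hh, y, (mem_lev w).1 hy, hzy⟩)

theorem big_of_lev {m n a b j : ℕ} (hm : ∑ i ∈ range n, (bdl w a b i).card ≤ m) (hj : j < n)
    (h : m < (lev w a b j).card) : ∀ l, l + (W - 1) ≤ j → W ≤ (lev w a b l).card + m := by
  have hdead : (dead w a b j).card ≤ m := by
    refine (card_dead w a b j).trans (le_trans ?_ hm)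
    apply sum_le_sum_of_subset
    intro x hx
    rw [mem_range] at hx ⊢
    omega
  obtain ⟨y, hy1, hy2⟩ : ∃ y, y ∈ lev w a b j ∧ y ∉ dead w a b j := by
    by_contra hcon
    push Not at hcon
    have := card_le_card (show lev w a b j ⊆ dead w a b j from hcon)
    omega
  have hne : ∀ i, i ≤ j → (lev w a b i).Nonempty := by
    intro i hi
    obtain ⟨d, rfl⟩ := Nat.exists_eq_add_of_le hi
    obtain ⟨c, hc, -⟩ := alive_below w d i hy1 hy2
    exact ⟨c, hc⟩
  have key : ∀ d i, i + d = j →
      min W (1 + d) ≤ (lev w a b i).card + ∑ l ∈ Ico i j, (bdl w a b l).card := by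
    intro d
    induction d with
    | zero =>
      intro i hi
      have := card_pos.2 (hne i (by omega))
      have h2 : min W (1 + 0) ≤ 1 := min_le_right _ _
      omega
    | succ d ih =>
      intro i hi
      have h1 := ih (i + 1) (by omega)
      have h2 := growth w (hne (i + 1) (by omega))
      have h3 : ∑ l ∈ Ico i j, (bdl w a b l).card =
          (bdl w a b i).card + ∑ l ∈ Ico (i + 1) j, (bdl w a b l).card :=
        sum_eq_sum_Ico_succ_bot (by omega) _
      rw [h3]
      omega
  intro l hl
  obtain ⟨d, hd⟩ := Nat.exists_eq_add_of_le (show l ≤ j by omega)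
  have h1 := key d l hd.symm
  have h2 : ∑ i ∈ Ico l j, (bdl w a b i).card ≤ m := by
    refine le_trans ?_ hm
    apply sum_le_sum_of_subset
    intro x hx
    rw [mem_Ico] at hx
    rw [mem_range]
    omega
  have h3 : min W (1 + d) = W := min_eq_left (by omega)
  omega

/-- Words all of whose intervals have small boundary are long. -/
theorem long_word {m n : ℕ} (hW : 3 * m + 2 ≤ W)
    (hm : ∀ a b, ∑ i ∈ range n, (bdl w a b i).card ≤ m) : ∀ i j a b, i * (W - 1) ≤ j → j < n →
      (∀ l ≤ j, W ≤ (lev w a b l).card + m) → 2 ^ i ≤ b - a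
  | 0, j, a, b, _, _, h => by
    have h1 := h 0 (Nat.zero_le _)
    have h2 : 0 < (lev w a b 0).card := by omega
    obtain ⟨x, hx⟩ := card_pos.1 h2
    obtain ⟨t, ht1, ht2, -⟩ := (mem_lev w).1 hx
    rw [pow_zero]
    omega
  | i + 1, j, a, b, hij, hj, h => by
    classical
    have hWj : i * (W - 1) + (W - 1) ≤ j := by
      calc i * (W - 1) + (W - 1) = (i + 1) * (W - 1) := by ring
        _ ≤ j := hij
    set j' := j - (W - 1) with hj'
    have hj'i : i * (W - 1) ≤ j' := by omega
    have hex : ∃ z, ∀ l ≤ j', W ≤ (lev w a z l).card + m := ⟨b, fun l hl => h l (by omega)⟩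
    set z := Nat.find hex with hz
    have hz1 : ∀ l ≤ j', W ≤ (lev w a z l).card + m := Nat.find_spec hex
    have hzb : z ≤ b := Nat.find_min' hex (fun l hl => h l (by omega))
    have hza : a < z := by
      have h2 : 0 < (lev w a z 0).card := by
        have := hz1 0 (Nat.zero_le _)
        omega
      obtain ⟨x, hx⟩ := card_pos.1 h2
      obtain ⟨t, ht1, ht2, -⟩ := (mem_lev w).1 hx
      omega
    have hleft : (lev w a (z - 1) j).card ≤ m := by
      by_contra hcon
      push Not at hcon
      have h3 := big_of_lev w (hm a (z - 1)) hj hcon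
      exact Nat.find_min hex (show z - 1 < Nat.find hex by omega)
        (fun l hl => h3 l (by omega))
    have hright : ∀ l ≤ j', W ≤ (lev w z b l).card + m := by
      have h4 : m < (lev w z b j).card := by
        by_contra hcon
        push Not at hcon
        have hsub : lev w a b j ⊆ lev w a (z - 1) j ∪ lev w z b j ∪
            univ.filter (fun x => w (z - 1) = some (j, x)) := by
          intro x hx
          obtain ⟨t, ht1, ht2, ht3⟩ := (mem_lev w).1 hx
          rcases lt_trichotomy t (z - 1) with h5 | h5 | h5
          · exact mem_union_left _ (mem_union_left _ ((mem_lev w).2 ⟨t, ht1, h5, ht3⟩))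
          · subst h5
            exact mem_union_right _ (by simp [ht3])
          · exact mem_union_left _ (mem_union_right _
              ((mem_lev w).2 ⟨t, by omega, ht2, ht3⟩))
        have hone : (univ.filter (fun x : ZMod W => w (z - 1) = some (j, x))).card ≤ 1 := by
          rw [card_le_one]
          intro x hx y hy
          rw [mem_filter] at hx hy
          have := hx.2.symm.trans hy.2
          simpa using this
        have h6 := (card_le_card hsub).trans ((card_union_le _ _).trans
          (Nat.add_le_add_right (card_union_le _ _) _))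
        have h7 := h j le_rfl
        omega
      intro l hl
      exact big_of_lev w (hm z b) hj h4 l (by omega)
    have e1 := long_word hW hm i j' a z hj'i (by omega) hz1
    have e2 := long_word hW hm i j' z b hj'i (by omega) hright
    have e3 : 2 ^ (i + 1) = 2 ^ i + 2 ^ i := by ring
    omega

end Pool.Agent.H554R2.Gen
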