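import Mathlib
import Pool.Agent.H554R2.Gen.Words
import Pool.Agent.H554R2.Gen.Splice

/-!
# The lower bound for the cylinder, abstract form
-/

set_option autoImplicit false

namespace Pool.Agent.H554R2.Gen

open Pool.Agent.H554R2.Thrifty

/-- The nodes of the cylinder with levels `0, …, n` and circumference `W`. -/
abbrev Node (n W : ℕ) : Type := Fin (n + 1) × ZMod W

/-- `u` is a child of `v`. -/
def Child {n W : ℕ} (u v : Node n W) : Prop :=
  v.1.val = u.1.val + 1 ∧ (u.2 = v.2 ∨ u.2 = v.2 + 1)

/-- The word of a list of states. -/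
def word {S : Type} {n W : ℕ} (f : S → Option (Node n W)) (l : List S) (t : ℕ) :
    Option (ℕ × ZMod W) :=
  (l[t]?).bind fun q => (f q).map fun v => (v.1.val, v.2)

theorem hit_iff {S : Type} {n W : ℕ} (f : S → Option (Node n W)) (l : List S) (v : Node n W)
    (a b : ℕ) : Hit (word f l) (v.1.val, v.2) a b ↔ ∃ q ∈ (l.drop a).take (b - a),
      f q = some v := by
  constructor
  · rintro ⟨t, hta, htb, ht⟩
    unfold word at ht
    rw [Option.bind_eq_some_iff] at ht
    obtain ⟨q, hq, hq2⟩ := ht
    refine ⟨q, ?_, ?_⟩
    · rw [List.mem_iff_getElem?]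
      refine ⟨t - a, ?_⟩
      rw [List.getElem?_take, if_pos (by omega), List.getElem?_drop,
        show a + (t - a) = t by omega]
      exact hq
    · rw [Option.map_eq_some_iff] at hq2
      obtain ⟨u, hu, hu2⟩ := hq2
      rw [hu]
      congr 1
      rw [Prod.mk.injEq] at hu2
      exact Prod.ext (Fin.ext hu2.1) hu2.2
  · rintro ⟨q, hq, hf⟩
    rw [List.mem_iff_getElem?] at hq
    obtain ⟨i, hi⟩ := hq
    rw [List.getElem?_take] at hi
    split_ifs at hi with h
    rw [List.getElem?_drop] at hi
    refine ⟨a + i, by omega, by omega, ?_⟩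
    unfold word
    rw [hi]
    simp [hf]

open Classical in
/-- Either every computation is long or there are many states. -/
theorem cyl_lower {V : Type} {K k n W m : ℕ} [NeZero W] (P : BP V K) (hk : 0 < k)
    (inp : (Node n W → Fin k) → V → Fin K) (nd : V → Option (Node n W))
    (arg : V → Node n W → Fin k)
    (hinp : ∀ lam mu e, (∀ v, nd e = some v → lam v = mu v) → inp lam e = inp mu e)
    (thr : ∀ lam l, P.IsComp (inp lam) l true → ∀ q ∈ l, ∀ v, nd (P.query q) = some v →
      ∀ u, Child u v → arg (P.query q) u = lam u)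
    (comp : ∀ lam, ∃ l, P.IsComp (inp lam) l true)
    (all : ∀ lam l, P.IsComp (inp lam) l true → ∀ v : Node n W, v.1.val + (W - 1) ≤ n →
      ∃ q ∈ l, nd (P.query q) = some v)
    (hW : 3 * m + 2 ≤ W) (hn : (W + 1) * (W - 1) ≤ n) :
    2 ^ W ≤ Fintype.card P.State ∨
      k ^ (m + 1) ≤ Fintype.card P.State * P.size * ((n + 1) * W).choose (m + 1) := by
  by_contra hcon
  push Not at hcon
  obtain ⟨hc1, hc2⟩ := hcon
  -- short accepting computations
  have hshort := fun lam => exists_short P (inp lam) true (comp lam)
  choose l hl hlen using hshort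
  -- all of them have an interval with large boundary
  have hbig : ∀ lam, ∃ a b, m < ∑ i ∈ Finset.range n,
      (bdl (word (fun q => nd (P.query q)) (l lam)) a b i).card := by
    intro lam
    by_contra hno
    push Not at hno
    have hlong := long_word (word (fun q => nd (P.query q)) (l lam)) hW hno W (n - (W - 1)) 0
      (l lam).length ?_ ?_ ?_
    · have := hlen lam
      simp only [Nat.sub_zero] at hlong
      omega
    · have : W * (W - 1) + (W - 1) ≤ n := by
        calc W * (W - 1) + (W - 1) = (W + 1) * (W - 1) := by ring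
          _ ≤ n := hn
      omega
    · have : 1 * 1 ≤ (W + 1) * (W - 1) := Nat.mul_le_mul (by omega) (by omega)
      omega
    · intro i hi
      have : lev (word (fun q => nd (P.query q)) (l lam)) 0 (l lam).length i = Finset.univ := by
        rw [Finset.eq_univ_iff_forall]
        intro x
        rw [mem_lev]
        have hin : i < n + 1 := by omega
        have h1 := all lam (l lam) (hl lam) (⟨i, hin⟩, x) (by
          show i + (W - 1) ≤ n
          have : (W + 1) * (W - 1) = W * (W - 1) + (W - 1) := by ring
          omega)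
        obtain ⟨q, hq, hq2⟩ := h1
        refine (hit_iff (fun q => nd (P.query q)) (l lam) (⟨i, hin⟩, x) 0 (l lam).length).2
          ⟨q, ?_, hq2⟩
        simpa using hq
      rw [this, Finset.card_univ, ZMod.card]
      omega
  -- apply the counting theorem
  have hcount := count P hk inp nd Child arg (fun r => r = true) hinp
    (by rintro lam l r rfl; exact thr lam l) (m + 1) ?_
  · have hcardν : Fintype.card (Node n W) = (n + 1) * W := by
      rw [Fintype.card_prod, Fintype.card_fin, ZMod.card]
    rw [hcardν] at hcount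
    omega
  · intro lam
    obtain ⟨a, b, hab⟩ := hbig lam
    set w := word (fun q => nd (P.query q)) (l lam) with hw
    -- the boundary as a set of nodes
    let B : Finset (Node n W) := Finset.univ.filter
      (fun v => v.1.val < n ∧ v.2 ∈ bdl w a b v.1.val)
    have hB : ∑ i ∈ Finset.range n, (bdl w a b i).card ≤ B.card := by
      rw [← Finset.card_sigma]
      refine Finset.card_le_card_of_injOn
        (fun z => ((⟨min z.1 n, by omega⟩ : Fin (n + 1)), z.2)) ?_ ?_
      · rintro ⟨i, x⟩ hz
        simp only [Finset.coe_sigma, Set.mem_sigma_iff, Finset.mem_coe, Finset.mem_range] at hz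
        simp only [B, Finset.coe_filter, Finset.mem_univ, true_and, Set.mem_ofPred_eq]
        rw [min_eq_left hz.1.le]
        exact hz
      · rintro ⟨i, x⟩ hz ⟨i', x'⟩ hz' h
        simp only [Finset.coe_sigma, Set.mem_sigma_iff, Finset.mem_coe, Finset.mem_range] at hz hz'
        simp only [Prod.mk.injEq, Fin.mk.injEq] at h
        rw [min_eq_left hz.1.le, min_eq_left hz'.1.le] at h
        obtain ⟨rfl, rfl⟩ := h
        rfl
    obtain ⟨U, hUB, hUc⟩ := Finset.exists_subset_card_eq (show m + 1 ≤ B.card by omega)
    have hsplit : l lam = (l lam).take a ++ (((l lam).drop a).take (b - a) ++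
        ((l lam).drop a).drop (b - a)) := by
      rw [List.take_append_drop, List.take_append_drop]
    have hbdry : ∀ u ∈ U, (∀ q ∈ ((l lam).drop a).take (b - a), nd (P.query q) ≠ some u) ∧
        ∃ q ∈ ((l lam).drop a).take (b - a), ∃ v, nd (P.query q) = some v ∧ Child u v := by
      intro u hu
      have hu' := hUB hu
      simp only [B, Finset.mem_filter, Finset.mem_univ, true_and] at hu'
      obtain ⟨hun, hub⟩ := hu'
      rw [mem_bdl] at hub
      obtain ⟨h1, y, h2, h3⟩ := hub
      constructor
      · intro q hq hcon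
        exact h1 ((hit_iff (fun q => nd (P.query q)) (l lam) u a b).2 ⟨q, hq, hcon⟩)
      · have h4 := (hit_iff (fun q => nd (P.query q)) (l lam)
          ((⟨u.1.val + 1, by omega⟩, y) : Node n W) a b).1 h2
        obtain ⟨q, hq, hq2⟩ := h4
        exact ⟨q, hq, _, hq2, rfl, h3⟩
    have hne : ((l lam).drop a).take (b - a) ≠ [] := by
      obtain ⟨u, hu⟩ : U.Nonempty := by
        rw [← Finset.card_pos]; omega
      obtain ⟨-, q, hq, -⟩ := hbdry u hu
      exact List.ne_nil_of_mem hq
    exact ⟨true, _, _, _, rfl, hsplit ▸ hl lam, hne, U, hUc, hbdry⟩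

end Pool.Agent.H554R2.Gen
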