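import Mathlib
import Pool.Agent.H554R2.Thrifty.Defs

/-!
# The generation problem GEN, and programs querying only generated pairs

Definitions after Gál, Koucký and McKenzie, *Incremental branching programs* (2008).
-/

set_option autoImplicit false

namespace Pool.Agent.H554R2.Gen

open Pool.Agent.H554R2.Thrifty

/-- A multiplication table on the elements `0, …, N`.  The variables are the pairs of elements,
the value of a variable is the product of the pair. -/
abbrev Table (N : ℕ) : Type := Fin (N + 1) × Fin (N + 1) → Fin (N + 1)

/-- The elements generated by the element `0`: the least set which contains `0` and is closed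
under the multiplication. -/
inductive Generated {N : ℕ} (T : Table N) : Fin (N + 1) → Prop
  | gen : Generated T 0
  | mul {a b : Fin (N + 1)} : Generated T a → Generated T b → Generated T (T (a, b))

/-- The nondeterministic program `P` accepts exactly the tables in which the last element is
generated by the element `0` (the problem GEN). -/
def AcceptsGEN {N : ℕ} (P : BP (Fin (N + 1) × Fin (N + 1)) (N + 1)) : Prop :=
  ∀ T : Table N, (∃ l, P.IsComp T l true) ↔ Generated T (Fin.last N)

/-- Every accepting computation of `P` queries only pairs of generated elements. -/
def QueriesGenerated {N : ℕ} (P : BP (Fin (N + 1) × Fin (N + 1)) (N + 1)) : Prop :=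
  ∀ (T : Table N) (l : List P.State), P.IsComp T l true →
    ∀ q ∈ l, Generated T (P.query q).1 ∧ Generated T (P.query q).2

end Pool.Agent.H554R2.Gen
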