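import Mathlib
import Pool.Agent.H554R2.Gen.Defs
import Pool.Agent.H554R2.Gen.Cyl

/-!
# The tables of the lower bound for GEN
-/

set_option autoImplicit false

namespace Pool.Agent.H554R2.Gen

open Pool.Agent.H554R2.Thrifty

/-- Left argument of the product which gives the node `v` (`none` is the generator). -/
def chL {n W : ℕ} (v : Node n W) : Option (Node n W) :=
  if h : v.1.val = 0 then (if v.2 = 0 then none else some (v.1, v.2 - 1))
  else some (⟨v.1.val - 1, by omega⟩, v.2)

/-- Right argument of the product which gives the node `v`. -/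
def chR {n W : ℕ} (v : Node n W) : Option (Node n W) :=
  if h : v.1.val = 0 then none else some (⟨v.1.val - 1, by omega⟩, v.2 + 1)

theorem ch_inj {n W : ℕ} {v v' : Node n W} (h1 : chL v = chL v') (h2 : chR v = chR v') :
    v = v' := by
  obtain ⟨⟨i, hi⟩, x⟩ := v
  obtain ⟨⟨i', hi'⟩, x'⟩ := v'
  unfold chL at h1
  unfold chR at h2
  simp only at h1 h2
  by_cases hi0 : i = 0
  · by_cases hi0' : i' = 0
    · subst hi0 hi0'
      simp only [dite_true] at h1
      split_ifs at h1 with ha hb hb
      · rw [ha, hb]
      · simp at h1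
        rw [h1]
    · simp [hi0, hi0'] at h2
  · by_cases hi0' : i' = 0
    · simp [hi0, hi0'] at h2
    · simp only [hi0, hi0', dite_false, Option.some.injEq, Prod.mk.injEq, Fin.mk.injEq] at h1
      have : i = i' := by omega
      subst this
      rw [h1.2]

/-- The data of the construction: pairwise distinct elements for the pairs of a node and a
label. -/
structure Emb (n W k N : ℕ) where
  /-- the element of a node with a label -/
  em : Node n W × Fin k → Fin (N + 1)
  inj : Function.Injective em
  ne_zero : ∀ p, em p ≠ 0
  ne_last : ∀ p, em p ≠ Fin.last N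
  hN : 0 < N

theorem exists_emb {n W k N : ℕ} [NeZero W] (h : (n + 1) * W * k < N) :
    Nonempty (Emb n W k N) := by
  have hcard : Fintype.card (Node n W × Fin k) = (n + 1) * W * k := by
    rw [Fintype.card_prod, Fintype.card_prod, Fintype.card_fin, Fintype.card_fin, ZMod.card]
  let e := Fintype.equivFin (Node n W × Fin k)
  refine ⟨⟨fun p => ⟨(e p).val + 1, ?_⟩, ?_, ?_, ?_, by omega⟩⟩
  · have := (e p).isLt
    omega
  · intro p p' hp
    simp only [Fin.mk.injEq, add_left_inj] at hp
    exact e.injective (Fin.ext hp)
  · intro p hp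
    rw [Fin.ext_iff] at hp
    simp at hp
  · intro p hp
    rw [Fin.ext_iff] at hp
    simp only [Fin.val_last] at hp
    have := (e p).isLt
    omega

namespace Emb

variable {n W k N : ℕ} (E : Emb n W k N)

/-- The element of a shape with a label. -/
def elt : Option (Node n W) → Fin k → Fin (N + 1)
  | none, _ => 0
  | some u, a => E.em (u, a)

theorem elt_shape {s s' : Option (Node n W)} {a a' : Fin k} (h : E.elt s a = E.elt s' a') :
    s = s' := by
  cases s with
  | none =>
    cases s' with
    | none => rfl
    | some u' => exact absurd h.symm (E.ne_zero _)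
  | some u =>
    cases s' with
    | none => exact absurd h (E.ne_zero _)
    | some u' =>
      have := E.inj h
      rw [Prod.mk.injEq] at this
      rw [this.1]

theorem elt_label {u : Node n W} {a a' : Fin k} (h : E.elt (some u) a = E.elt (some u) a') :
    a = a' := by
  have := E.inj h
  rw [Prod.mk.injEq] at this
  exact this.2

/-- The pair `e` is a product which gives the node `v`. -/
def IsNd (e : Fin (N + 1) × Fin (N + 1)) (v : Node n W) : Prop :=
  ∃ a b, e = (E.elt (chL v) a, E.elt (chR v) b)

theorem isNd_unique {e : Fin (N + 1) × Fin (N + 1)} {v v' : Node n W} (h : E.IsNd e v)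
    (h' : E.IsNd e v') : v = v' := by
  obtain ⟨a, b, h⟩ := h
  obtain ⟨a', b', h'⟩ := h'
  rw [h, Prod.mk.injEq] at h'
  exact ch_inj (E.elt_shape h'.1) (E.elt_shape h'.2)

/-- The pair `e` is one of the products which give the last element. -/
def IsSink (e : Fin (N + 1) × Fin (N + 1)) : Prop :=
  ∃ a b, e = (E.elt (some (Fin.last n, 0)) a, E.elt (some (Fin.last n, 1)) b)

theorem not_isNd_of_isSink {e : Fin (N + 1) × Fin (N + 1)} (h : E.IsSink e) (v : Node n W) :
    ¬ E.IsNd e v := by
  rintro ⟨a', b', h'⟩
  obtain ⟨a, b, h⟩ := h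
  rw [h, Prod.mk.injEq] at h'
  have h1 := E.elt_shape h'.1
  have h2 := E.elt_shape h'.2
  obtain ⟨⟨i, hi⟩, x⟩ := v
  unfold chR at h2
  unfold chL at h1
  simp only at h1 h2
  by_cases hi0 : i = 0
  · simp [hi0] at h2
  · simp only [hi0, dite_false, Option.some.injEq, Prod.mk.injEq] at h1
    have := h1.1
    rw [Fin.ext_iff] at this
    simp only [Fin.val_last] at this
    omega

open Classical in
/-- The node of a pair. -/
noncomputable def nd (e : Fin (N + 1) × Fin (N + 1)) : Option (Node n W) :=
  if h : ∃ v, E.IsNd e v then some h.choose else none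

theorem nd_eq_some {e : Fin (N + 1) × Fin (N + 1)} {v : Node n W} :
    E.nd e = some v ↔ E.IsNd e v := by
  unfold nd
  constructor
  · intro h
    split_ifs at h with h'
    rw [Option.some.injEq] at h
    rw [← h]
    exact h'.choose_spec
  · intro h
    have h' : ∃ v, E.IsNd e v := ⟨v, h⟩
    rw [dif_pos h', Option.some.injEq]
    exact E.isNd_unique h'.choose_spec h

open Classical in
/-- The label of the node `u` in a pair. -/
noncomputable def arg [NeZero k] (e : Fin (N + 1) × Fin (N + 1)) (u : Node n W) : Fin k :=
  if h : ∃ a, e.1 = E.elt (some u) a ∨ e.2 = E.elt (some u) a then h.choose else 0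

open Classical in
/-- The table of a labelling. -/
noncomputable def tab (lam : Node n W → Fin k) : Table N := fun e =>
  match E.nd e with
  | some v => E.elt (some v) (lam v)
  | none => if E.IsSink e then Fin.last N else 0

theorem tab_nd {lam : Node n W → Fin k} {e : Fin (N + 1) × Fin (N + 1)} {v : Node n W}
    (h : E.nd e = some v) : E.tab lam e = E.elt (some v) (lam v) := by
  unfold tab
  rw [h]

theorem tab_sink {lam : Node n W → Fin k} {e : Fin (N + 1) × Fin (N + 1)}
    (h : E.IsSink e) : E.tab lam e = Fin.last N := by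
  have h1 : E.nd e = none := by
    cases h2 : E.nd e with
    | none => rfl
    | some v => exact absurd (E.nd_eq_some.1 h2) (E.not_isNd_of_isSink h v)
  unfold tab
  rw [h1]
  simp [h]

theorem tab_other {lam : Node n W → Fin k} {e : Fin (N + 1) × Fin (N + 1)}
    (h1 : E.nd e = none) (h : ¬ E.IsSink e) : E.tab lam e = 0 := by
  unfold tab
  rw [h1]
  simp [h]

theorem tab_congr {lam mu : Node n W → Fin k} {e : Fin (N + 1) × Fin (N + 1)}
    (h : ∀ v, E.nd e = some v → lam v = mu v) : E.tab lam e = E.tab mu e := by
  cases h2 : E.nd e with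
  | some v => rw [E.tab_nd h2, E.tab_nd h2, h v h2]
  | none =>
    by_cases h3 : E.IsSink e
    · rw [E.tab_sink h3, E.tab_sink h3]
    · rw [E.tab_other h2 h3, E.tab_other h2 h3]

/-- What the table produces. -/
theorem tab_range (lam : Node n W → Fin k) (e : Fin (N + 1) × Fin (N + 1)) :
    E.tab lam e = 0 ∨ E.tab lam e = Fin.last N ∨ ∃ v, E.tab lam e = E.elt (some v) (lam v) := by
  cases h2 : E.nd e with
  | some v => exact Or.inr (Or.inr ⟨v, E.tab_nd h2⟩)
  | none =>
    by_cases h3 : E.IsSink e
    · exact Or.inr (Or.inl (E.tab_sink h3))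
    · exact Or.inl (E.tab_other h2 h3)

theorem generated_label {lam : Node n W → Fin k} {u : Node n W} {a : Fin k}
    (h : Generated (E.tab lam) (E.elt (some u) a)) : a = lam u := by
  have key : ∀ e, Generated (E.tab lam) e →
      e = 0 ∨ e = Fin.last N ∨ ∃ v, e = E.elt (some v) (lam v) := by
    intro e he
    cases he with
    | gen => exact Or.inl rfl
    | mul _ _ => exact E.tab_range lam _
  rcases key _ h with h1 | h1 | ⟨v, h1⟩
  · exact absurd h1 (E.ne_zero _)
  · exact absurd h1 (E.ne_last _)
  · have := E.elt_shape h1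
    rw [Option.some.injEq] at this
    subst this
    exact E.elt_label h1

theorem arg_eq [NeZero k] {lam : Node n W → Fin k} {e : Fin (N + 1) × Fin (N + 1)}
    {u : Node n W} (h1 : Generated (E.tab lam) e.1) (h2 : Generated (E.tab lam) e.2)
    (h : ∃ a, e.1 = E.elt (some u) a ∨ e.2 = E.elt (some u) a) : E.arg e u = lam u := by
  unfold arg
  rw [dif_pos h]
  have hc := h.choose_spec
  rcases hc with hc | hc
  · rw [hc] at h1
    exact E.generated_label h1
  · rw [hc] at h2
    exact E.generated_label h2

theorem child_arg {e : Fin (N + 1) × Fin (N + 1)} {u v : Node n W} (hv : E.nd e = some v)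
    (hu : Child u v) : ∃ a, e.1 = E.elt (some u) a ∨ e.2 = E.elt (some u) a := by
  rw [E.nd_eq_some] at hv
  obtain ⟨a, b, hab⟩ := hv
  obtain ⟨h1, h2⟩ := hu
  have h0 : v.1.val ≠ 0 := by omega
  have h3 : (⟨v.1.val - 1, by omega⟩ : Fin (n + 1)) = u.1 := Fin.ext (by simp; omega)
  have hL : chL v = some (u.1, v.2) := by
    unfold chL
    rw [dif_neg h0, h3]
  have hR : chR v = some (u.1, v.2 + 1) := by
    unfold chR
    rw [dif_neg h0, h3]
  rw [hab, hL, hR]
  rcases h2 with h2 | h2
  · refine ⟨a, Or.inl ?_⟩
    show E.elt (some (u.1, v.2)) a = E.elt (some u) a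
    rw [← h2]
  · refine ⟨b, Or.inr ?_⟩
    show E.elt (some (u.1, v.2 + 1)) b = E.elt (some u) b
    rw [← h2]

/-- All nodes with their labels are generated. -/
theorem generated_node [NeZero W] (lam : Node n W → Fin k) (hk : 0 < k) : ∀ (i : ℕ)
    (hi : i < n + 1) (x : ZMod W), Generated (E.tab lam) (E.elt (some (⟨i, hi⟩, x)) (lam (⟨i, hi⟩, x)))
  | 0, hi, x => by
    have key : ∀ j : ℕ, Generated (E.tab lam)
        (E.elt (some (⟨0, hi⟩, (j : ZMod W))) (lam (⟨0, hi⟩, (j : ZMod W)))) := by
      intro j
      induction j with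
      | zero =>
        have h : E.nd (0, 0) = some ((⟨0, hi⟩, ((0 : ℕ) : ZMod W)) : Node n W) := by
          rw [E.nd_eq_some]
          refine ⟨⟨0, hk⟩, ⟨0, hk⟩, ?_⟩
          simp [chL, chR, elt]
        have := Generated.mul (T := E.tab lam) Generated.gen Generated.gen
        rwa [E.tab_nd h] at this
      | succ j ih =>
        by_cases hz : ((j + 1 : ℕ) : ZMod W) = 0
        · rw [hz]
          have h : E.nd (0, 0) = some ((⟨0, hi⟩, 0) : Node n W) := by
            rw [E.nd_eq_some]
            refine ⟨⟨0, hk⟩, ⟨0, hk⟩, ?_⟩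
            simp [chL, chR, elt]
          have := Generated.mul (T := E.tab lam) Generated.gen Generated.gen
          rwa [E.tab_nd h] at this
        · have h : E.nd (E.elt (some (⟨0, hi⟩, (j : ZMod W))) (lam (⟨0, hi⟩, (j : ZMod W))), 0) =
              some ((⟨0, hi⟩, ((j + 1 : ℕ) : ZMod W)) : Node n W) := by
            rw [E.nd_eq_some]
            refine ⟨lam (⟨0, hi⟩, (j : ZMod W)), ⟨0, hk⟩, ?_⟩
            have e1 : chL ((⟨0, hi⟩, ((j + 1 : ℕ) : ZMod W)) : Node n W) =
                some (⟨0, hi⟩, (j : ZMod W)) := by
              unfold chL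
              rw [dif_pos rfl, if_neg hz]
              push_cast
              simp
            have e2 : chR ((⟨0, hi⟩, ((j + 1 : ℕ) : ZMod W)) : Node n W) = none := by
              unfold chR
              rw [dif_pos rfl]
            rw [e1, e2]
            rfl
          have := Generated.mul (T := E.tab lam) ih Generated.gen
          rwa [E.tab_nd h] at this
    have := key x.val
    rwa [ZMod.natCast_zmod_val] at this
  | i + 1, hi, x => by
    have h1 := generated_node lam hk i (by omega) x
    have h2 := generated_node lam hk i (by omega) (x + 1)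
    have h : E.nd (E.elt (some (⟨i, by omega⟩, x)) (lam (⟨i, by omega⟩, x)),
        E.elt (some (⟨i, by omega⟩, x + 1)) (lam (⟨i, by omega⟩, x + 1))) =
        some ((⟨i + 1, hi⟩, x) : Node n W) := by
      rw [E.nd_eq_some]
      refine ⟨lam (⟨i, by omega⟩, x), lam (⟨i, by omega⟩, x + 1), ?_⟩
      simp [chL, chR]
    have := Generated.mul (T := E.tab lam) h1 h2
    rwa [E.tab_nd h] at this

theorem generated_last [NeZero W] (lam : Node n W → Fin k) (hk : 0 < k) :
    Generated (E.tab lam) (Fin.last N) := by
  have h1 := E.generated_node lam hk n (Nat.lt_succ_self n) 0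
  have h2 := E.generated_node lam hk n (Nat.lt_succ_self n) 1
  have h3 : E.IsSink (E.elt (some (⟨n, Nat.lt_succ_self n⟩, 0)) (lam (⟨n, Nat.lt_succ_self n⟩, 0)),
      E.elt (some (⟨n, Nat.lt_succ_self n⟩, 1)) (lam (⟨n, Nat.lt_succ_self n⟩, 1))) :=
    ⟨_, _, rfl⟩
  have := Generated.mul (T := E.tab lam) h1 h2
  rwa [E.tab_sink h3] at this

variable (P : BP (Fin (N + 1) × Fin (N + 1)) (N + 1))

/-- If an accepting computation uses an element of the node `u`, then it queries a pair that gives
the node `u`. -/
theorem occurs (hk : 2 ≤ k) (hgen : QueriesGenerated P) {lam : Node n W → Fin k}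
    {l : List P.State} (hl : P.IsComp (E.tab lam) l true) {q : P.State} (hq : q ∈ l)
    {u : Node n W} {a : Fin k}
    (ha : (P.query q).1 = E.elt (some u) a ∨ (P.query q).2 = E.elt (some u) a) :
    ∃ q' ∈ l, E.nd (P.query q') = some u := by
  classical
  by_contra hcon
  push Not at hcon
  obtain ⟨c, hc⟩ : ∃ c : Fin k, c ≠ lam u := by
    have : Nontrivial (Fin k) := Fin.nontrivial_iff_two_le.2 hk
    exact exists_ne _
  have hl' : P.IsComp (E.tab (Function.update lam u c)) l true := by
    rw [isComp_iff] at hl ⊢
    refine ⟨hl.1, seg_congr P _ _ _ l ?_ hl.2⟩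
    intro q' hq'
    apply E.tab_congr
    intro v hv
    have : v ≠ u := by
      rintro rfl
      exact hcon q' hq' hv
    rw [Function.update_of_ne this]
  have h1 := hgen _ l hl q hq
  have h2 := hgen _ l hl' q hq
  have : lam u = c := by
    rcases ha with ha | ha
    · rw [ha] at h1 h2
      rw [← E.generated_label h1.1, E.generated_label h2.1, Function.update_self]
    · rw [ha] at h1 h2
      rw [← E.generated_label h1.2, E.generated_label h2.2, Function.update_self]
  exact hc this.symm

/-- Every accepting computation queries the pair which gives the last element. -/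
theorem sink_occurs (hacc : AcceptsGEN P) {lam : Node n W → Fin k} {l : List P.State}
    (hl : P.IsComp (E.tab lam) l true) : ∃ q ∈ l, E.IsSink (P.query q) := by
  classical
  by_contra hcon
  push Not at hcon
  set T' : Table N := fun e => if E.IsSink e then 0 else E.tab lam e with hT'
  have hl' : P.IsComp T' l true := by
    rw [isComp_iff] at hl ⊢
    refine ⟨hl.1, seg_congr P _ _ _ l ?_ hl.2⟩
    intro q' hq'
    rw [hT']
    simp only
    rw [if_neg (hcon q' hq')]
  have hg := (hacc T').1 ⟨l, hl'⟩
  have key : ∀ e, Generated T' e → e ≠ Fin.last N := by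
    intro e he
    cases he with
    | gen =>
      intro h
      have := E.hN
      rw [Fin.ext_iff] at h
      simp at h
      omega
    | @mul a b _ _ =>
      rw [hT']
      simp only
      split_ifs with hs
      · intro h
        have := E.hN
        rw [Fin.ext_iff] at h
        simp at h
        omega
      · rcases E.tab_range lam (a, b) with h1 | h1 | ⟨v, h1⟩
        · rw [h1]
          intro h
          have := E.hN
          rw [Fin.ext_iff] at h
          simp at h
          omega
        · exfalso
          cases h2 : E.nd (a, b) with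
          | some v =>
            rw [E.tab_nd h2] at h1
            exact E.ne_last _ h1
          | none =>
            rw [E.tab_other h2 hs] at h1
            have := E.hN
            rw [Fin.ext_iff] at h1
            simp at h1
            omega
        · rw [h1]
          exact E.ne_last _
  exact key _ hg rfl

/-- All nodes at least `W - 1` levels below the top occur. -/
theorem all_occur [NeZero W] (hk : 2 ≤ k) (hacc : AcceptsGEN P) (hgen : QueriesGenerated P)
    {lam : Node n W → Fin k} {l : List P.State} (hl : P.IsComp (E.tab lam) l true)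
    (v : Node n W) (hv : v.1.val + (W - 1) ≤ n) : ∃ q ∈ l, E.nd (P.query q) = some v := by
  have step : ∀ u v : Node n W, Child u v → (∃ q ∈ l, E.nd (P.query q) = some v) →
      ∃ q ∈ l, E.nd (P.query q) = some u := by
    rintro u v huv ⟨q, hq, hqv⟩
    obtain ⟨a, ha⟩ := E.child_arg hqv huv
    exact E.occurs P hk hgen hl hq ha
  have key : ∀ d (hd : d ≤ n), ∀ j : ℕ, j ≤ d →
      ∃ q ∈ l, E.nd (P.query q) = some ((⟨n - d, by omega⟩, (j : ZMod W)) : Node n W) := by
    intro d
    induction d with
    | zero =>
      intro _ j hj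
      have hj0 : j = 0 := by omega
      subst hj0
      obtain ⟨q, hq, a, b, hab⟩ := E.sink_occurs P hacc hl
      have h1 := E.occurs P hk hgen hl hq (u := (Fin.last n, 0)) (a := a)
        (Or.inl (by rw [hab]))
      simpa [Fin.last] using h1
    | succ d ih =>
      intro hd j hj
      by_cases hjd : j ≤ d
      · refine step _ _ ⟨?_, Or.inl ?_⟩ (ih (by omega) j hjd)
        · simp only
          omega
        · rfl
      · refine step _ _ ⟨?_, Or.inr ?_⟩ (ih (by omega) d le_rfl)
        · simp only
          omega
        · have : j = d + 1 := by omega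
          subst this
          push_cast
          rfl
  have h := key (n - v.1.val) (by omega) v.2.val (by
    have := ZMod.val_lt v.2
    omega)
  rw [ZMod.natCast_zmod_val] at h
  have e : ((⟨n - (n - v.1.val), by omega⟩ : Fin (n + 1)), v.2) = v := by
    refine Prod.ext (Fin.ext ?_) rfl
    simp only
    omega
  rwa [e] at h

end Emb

end Pool.Agent.H554R2.Gen
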