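import Mathlib
import Pool.Agent.H554R2.Gen.Table

/-!
# The lower bound for GEN
-/

set_option autoImplicit false

namespace Pool.Agent.H554R2.Gen

open Pool.Agent.H554R2.Thrifty

theorem choose_bound (V M : ℕ) : V.choose M * M ^ M ≤ (3 * V) ^ M := by
  have h1 : ((V.choose M : ℕ) : ℝ) ≤ (V : ℝ) ^ M / (M.factorial : ℝ) :=
    Nat.choose_le_pow_div M V
  have h2 : (M : ℝ) ^ M / (M.factorial : ℝ) ≤ Real.exp M :=
    Real.pow_div_factorial_le_exp (M : ℝ) (Nat.cast_nonneg M) M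
  have h3 : Real.exp M ≤ 3 ^ M := by
    have h4 : Real.exp 1 ≤ 3 := Real.exp_one_lt_three.le
    calc Real.exp M = Real.exp 1 ^ M := by rw [← Real.exp_nat_mul, mul_one]
      _ ≤ 3 ^ M := pow_le_pow_left₀ (Real.exp_pos _).le h4 M
  have h5 : ((V.choose M : ℕ) : ℝ) * (M : ℝ) ^ M ≤ (3 * (V : ℝ)) ^ M := by
    calc ((V.choose M : ℕ) : ℝ) * (M : ℝ) ^ M
        ≤ ((V : ℝ) ^ M / (M.factorial : ℝ)) * (M : ℝ) ^ M :=
          mul_le_mul_of_nonneg_right h1 (by positivity)
      _ = (V : ℝ) ^ M * ((M : ℝ) ^ M / (M.factorial : ℝ)) := by ring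
      _ ≤ (V : ℝ) ^ M * 3 ^ M := mul_le_mul_of_nonneg_left (h2.trans h3) (by positivity)
      _ = (3 * (V : ℝ)) ^ M := by rw [mul_pow]; ring
  exact_mod_cast h5

theorem gen_lower (W N : ℕ) (hW : 2 ≤ W) (hN : 300 * W ^ 5 < N)
    (P : BP (Fin (N + 1) × Fin (N + 1)) (N + 1)) (hacc : AcceptsGEN P)
    (hgen : QueriesGenerated P) : 2 ^ (W / 2) ≤ P.size := by
  have : NeZero W := ⟨by omega⟩
  set n := W ^ 2 with hn
  set k := 192 * (W ^ 2 + 1) with hkdef
  have hk : 2 ≤ k := by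
    have : 0 < W ^ 2 := by positivity
    omega
  have : NeZero k := ⟨by omega⟩
  have hemb : (n + 1) * W * k < N := by
    refine lt_of_le_of_lt ?_ hN
    have h1 : 4 * (W ^ 2 + 1) ≤ 5 * W ^ 2 := by nlinarith
    have h2 : 4 * (W ^ 2 + 1) * (4 * (W ^ 2 + 1)) ≤ 5 * W ^ 2 * (5 * W ^ 2) :=
      Nat.mul_le_mul h1 h1
    calc (n + 1) * W * k = 12 * W * (4 * (W ^ 2 + 1) * (4 * (W ^ 2 + 1))) := by
          rw [hn, hkdef]; ring
      _ ≤ 12 * W * (5 * W ^ 2 * (5 * W ^ 2)) := Nat.mul_le_mul_left _ h2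
      _ = 300 * W ^ 5 := by ring
  obtain ⟨E⟩ := exists_emb hemb
  set m := (W - 2) / 3 with hm
  have hmain := cyl_lower (m := m) P (show 0 < k by omega) E.tab E.nd E.arg
    (fun lam mu e h => E.tab_congr h)
    (by
      intro lam l hl q hq v hv u hu
      have h1 := hgen _ l hl q hq
      exact E.arg_eq h1.1 h1.2 (E.child_arg hv hu))
    (fun lam => (hacc (E.tab lam)).2 (E.generated_last lam (by omega)))
    (fun lam l hl v hv => E.all_occur P hk hacc hgen hl v hv)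
    (by omega)
    (by
      rw [hn]
      have : (W + 1) * (W - 1) + 1 = W ^ 2 := by
        obtain ⟨w, rfl⟩ : ∃ w, W = w + 1 := ⟨W - 1, by omega⟩
        simp only [Nat.add_sub_cancel]
        ring
      omega)
  have hcs : Fintype.card P.State ≤ P.size := Nat.le_add_right _ _
  rcases hmain with h | h
  · calc 2 ^ (W / 2) ≤ 2 ^ W := Nat.pow_le_pow_right (by norm_num) (by omega)
      _ ≤ Fintype.card P.State := h
      _ ≤ P.size := hcs
  · set M := m + 1 with hM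
    set V := (n + 1) * W with hV
    have hMpos : 0 < M := by omega
    have h1 : k ^ M * M ^ M ≤ P.size ^ 2 * (3 * V) ^ M := by
      calc k ^ M * M ^ M ≤ (Fintype.card P.State * P.size * V.choose M) * M ^ M :=
            Nat.mul_le_mul_right _ h
        _ = Fintype.card P.State * P.size * (V.choose M * M ^ M) := by ring
        _ ≤ P.size * P.size * (3 * V) ^ M :=
            Nat.mul_le_mul (Nat.mul_le_mul_right _ hcs) (choose_bound V M)
        _ = P.size ^ 2 * (3 * V) ^ M := by ring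
    have h2 : 16 * (3 * V) ≤ k * M := by
      have h3 : W ≤ 4 * M := by omega
      calc 16 * (3 * V) = 48 * (W ^ 2 + 1) * W := by rw [hV, hn]; ring
        _ ≤ 48 * (W ^ 2 + 1) * (4 * M) := Nat.mul_le_mul_left _ h3
        _ = k * M := by rw [hkdef]; ring
    have h3 : 16 ^ M * (3 * V) ^ M ≤ P.size ^ 2 * (3 * V) ^ M := by
      calc 16 ^ M * (3 * V) ^ M = (16 * (3 * V)) ^ M := by rw [mul_pow 16]
        _ ≤ (k * M) ^ M := Nat.pow_le_pow_left h2 M
        _ = k ^ M * M ^ M := by rw [mul_pow]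
        _ ≤ _ := h1
    have hVpos : 0 < (3 * V) ^ M := by
      apply Nat.pow_pos
      rw [hV]
      positivity
    have h4 : 16 ^ M ≤ P.size ^ 2 := Nat.le_of_mul_le_mul_right h3 hVpos
    have h5 : (4 ^ M) ^ 2 ≤ P.size ^ 2 := by
      calc (4 ^ M) ^ 2 = 16 ^ M := by rw [← pow_mul, mul_comm, pow_mul]; norm_num
        _ ≤ _ := h4
    have h6 : 4 ^ M ≤ P.size := (Nat.pow_le_pow_iff_left (by norm_num)).1 h5
    calc 2 ^ (W / 2) ≤ 2 ^ (2 * M) := Nat.pow_le_pow_right (by norm_num) (by omega)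
      _ = 4 ^ M := by rw [pow_mul]; norm_num
      _ ≤ P.size := h6

end Pool.Agent.H554R2.Gen
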